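import Mathlib
import Pool.Agent.Lib.MP_5a22fd_pr.Prob

set_option autoImplicit false

open MeasureTheory ProbabilityTheory
open scoped ENNReal NNReal

universe u

namespace Pool.Agent.Results.MP_5a22fd_pr.BoundedDensity

/-- The law of the record random harmonic series has a bounded density: there is a finite
constant `C` such that for independent `{0,1}`-valued random variables `I 1, I 2, …` with
`P (I n = 1) = 1 / n`, the sum `S = ∑ I n / n` satisfies `P (S ∈ A) ≤ C * λ A` for every Borel set `A`. -/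
theorem result :
    ∃ C : ℝ≥0, ∀ (Ω : Type u) [MeasurableSpace Ω] (P : Measure Ω) [IsProbabilityMeasure P]
      (I : ℕ+ → Ω → ℝ),
      (∀ n, Measurable (I n)) →
      iIndepFun I P →
      (∀ n ω, I n ω = 0 ∨ I n ω = 1) →
      (∀ n : ℕ+, P {ω | I n ω = 1} = 1 / ((n : ℕ) : ℝ≥0∞)) →
      ∀ A : Set ℝ, MeasurableSet A →
        P {ω | (∑' n : ℕ+, I n ω / ((n : ℕ) : ℝ)) ∈ A} ≤ (C : ℝ≥0∞) * volume A := by
  refine ⟨(64 * Real.exp 200).toNNReal, ?_⟩
  intro Ω _ P _ I hm hind h01 hp A _
  have hinj : Function.Injective Nat.succPNat := Nat.succPNat_injective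
  have key := Pool.Agent.Lib.MP_5a22fd_pr.tsum_bound P (fun n => I n.succPNat)
    (fun n => hm _) (hind.precomp hinj) (fun n ω => h01 _ ω) (by
      intro n
      rw [Measure.real, hp]
      simp [ENNReal.toReal_add]) A
  have e : ∀ ω, (∑' n : ℕ+, I n ω / ((n : ℕ) : ℝ))
      = ∑' n : ℕ, I n.succPNat ω / ((n : ℝ) + 1) := by
    intro ω
    rw [← Equiv.pnatEquivNat.symm.tsum_eq]
    simp
  simp only [e]
  exact key

end Pool.Agent.Results.MP_5a22fd_pr.BoundedDensity
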